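import Pool.Agent.V5helper50.RS.Stm2

/-!
# Project RS, job BC: Borel-Cantelli for the random model
-/

set_option autoImplicit false

open Finset MeasureTheory ProbabilityTheory Filter

namespace Pool.Agent.V5helper31.RS

open Pool.Agent.V5helper50.RS

theorem t_BC : Pool.Agent.V5helper50.RS.S_BC := by
  intro hLAW k Ω _ μ θ hM E C L₀ hdep hpr
  haveI := hM.prob
  have hkey : ∀ L, L₀ ≤ L → μ {ω | E L (fun x => θ x ω)} ≤ ENNReal.ofReal (C / (L : ℝ) ^ 2) := by
    intro L hL
    obtain ⟨-, h2⟩ := hLAW Ω μ θ hM.meas hM.indep (Tk k) (Tk_pos k) hM.bound hM.unif (L + 1) (E L)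
      (hdep L)
    rw [← ENNReal.ofReal_toReal (measure_ne_top μ {ω | E L (fun x => θ x ω)})]
    refine ENNReal.ofReal_le_ofReal ?_
    have h3 : (μ {ω | E L (fun x => θ x ω)}).toReal = pr (Tk k) (L + 1) (E L) := h2
    rw [h3]
    exact hpr L hL
  have hsum : Summable (fun L : ℕ => C / ((L + L₀ : ℕ) : ℝ) ^ 2) := by
    have h0 : Summable (fun n : ℕ => C * (1 / (n : ℝ) ^ 2)) :=
      (Real.summable_one_div_nat_pow.mpr (by norm_num)).mul_left C
    have h1 : Summable (fun n : ℕ => C / (n : ℝ) ^ 2) := by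
      refine h0.congr fun n => ?_
      rw [mul_one_div]
    exact (summable_nat_add_iff (f := fun n : ℕ => C / (n : ℝ) ^ 2) L₀).mpr h1
  have hfin : (∑' L : ℕ, μ {ω | E (L + L₀) (fun x => θ x ω)}) ≠ ⊤ := by
    refine ne_top_of_le_ne_top hsum.tsum_ofReal_ne_top (ENNReal.tsum_le_tsum fun L => ?_)
    exact hkey (L + L₀) (Nat.le_add_left _ _)
  have hae := ae_eventually_notMem hfin
  filter_upwards [hae] with ω hω
  obtain ⟨N₁, hN⟩ := eventually_atTop.mp hω
  refine ⟨N₁ + L₀, fun L hL => ?_⟩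
  have := hN (L - L₀) (by omega)
  rw [Nat.sub_add_cancel (by omega : L₀ ≤ L)] at this
  exact this

end Pool.Agent.V5helper31.RS
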